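import Mathlib

namespace Pool.Agent.H.MP_cbd396_lc

open Finset Relation

/-- `M` meets every directed path from a source to its sink -/
def Multicut {V ι : Type} (E : V → V → Prop) (s t : ι → V) (M : Finset (V × V)) : Prop :=
  ∀ i, ¬ReflTransGen (fun u v => E u v ∧ (u, v) ∉ M) (s i) (t i)

/-- there is a network code over `A` with block length `b` and message lengths `a` -/
def Solution {V ι : Type} (E : V → V → Prop) (s t : ι → V) (A : Type) (b : ℕ) (a : ι → ℕ) : Prop :=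
  ∃ y : V → V → (∀ i, Fin (a i) → A) → Fin b → A,
    (∀ u v, E u v → ∃ f : ({w // E w u} → Fin b → A) → (∀ i : {i // s i = u}, Fin (a i) → A) → Fin b → A,
      ∀ x, y u v x = f (fun w => y w u x) fun i => x i) ∧
    ∀ i, ∃ g : ({w // E w (t i)} → Fin b → A) → Fin (a i) → A, ∀ x, x i = g fun w => y w (t i) x

structure Good (V : Type) [Fintype V] (R : V → V → Prop) (K : ℕ) (rk w : V → ℕ) (m : ℕ) : Prop where
  lt : ∀ a b, R a b → rk b < rk a
  bd : ∀ a, rk a < K
  uq : ∀ a c d b, R a c → R a d → ReflTransGen R c b → ReflTransGen R d b → c = d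
  pos : 0 < ∑ v, w v
  ind : ∀ I : Finset V, (∀ a ∈ I, ∀ b ∈ I, ¬R a b) → m * ∑ v ∈ I, w v ≤ 2 * ∑ v, w v

theorem prod_le {ι : Type} (s : Finset ι) (x : ι → ℝ) (h0 : ∀ i, 0 ≤ x i) (h1 : ∀ i, x i ≤ 1) :
    (∏ i ∈ s, (1 - x i)) * (1 + ∑ i ∈ s, x i) ≤ 1 := by
  classical
  induction s using Finset.induction_on with
  | empty => simp
  | insert a s ha ih =>
    rw [prod_insert ha, sum_insert ha]
    have p : 0 ≤ ∏ i ∈ s, (1 - x i) := prod_nonneg fun i _ => sub_nonneg.2 (h1 i)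
    have q : 0 ≤ ∑ i ∈ s, x i := sum_nonneg fun i _ => h0 i
    have := h0 a
    nlinarith [mul_nonneg p (mul_nonneg this q), mul_nonneg p (mul_nonneg this this)]

def nx {V : Type} (t : ℕ) (R : V → V → Prop) : (Fin t × V) ⊕ (Fin t → V) → (Fin t × V) ⊕ (Fin t → V) → Prop
  | .inl a, .inl b => a.1 = b.1 ∧ R a.2 b.2
  | .inr f, .inl b => f b.1 = b.2
  | _, .inr _ => False

theorem nx_reach {V : Type} {t : ℕ} {R : V → V → Prop} {a z} (h : ReflTransGen (nx t R) (.inl a) z) :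
    ∃ b, z = .inl (a.1, b) ∧ ReflTransGen R a.2 b := by
  induction h with
  | refl => exact ⟨a.2, rfl, .refl⟩
  | @tail _ c _ h ih =>
    obtain ⟨b, rfl, q⟩ := ih
    rcases c with c | c
    · exact ⟨c.2, congrArg _ (Prod.ext h.1.symm rfl), q.tail h.2⟩
    · exact h.elim

theorem ineq {m t s P : ℝ} (m2 : 2 ≤ m) (ht : t = m * m + 1) (s0 : 0 ≤ s) (s1 : m * s ≤ 2 * t) (hP : P * (1 + s) ≤ 1) :
    (m - 1) * s + 2 * t * P ≤ 2 * t := by
  have : m ≤ t + 1 := by nlinarith
  have a : (m - 1) * (1 + s) ≤ 2 * t := by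
    refine le_of_mul_le_mul_left ?_ (by linarith : 0 < m)
    nlinarith
  refine le_of_mul_le_mul_right ?_ (by linarith : 0 < 1 + s)
  nlinarith [mul_le_mul_of_nonneg_left a s0, mul_le_mul_of_nonneg_left hP (by nlinarith : 0 ≤ 2 * t)]

theorem exists_good (m : ℕ) : ∃ (V : Type) (_ : Fintype V) (R : V → V → Prop) (K : ℕ) (rk w : V → ℕ),
    Good V R K rk w (m + 2) := by
  classical
  induction m with
  | zero => exact ⟨Unit, inferInstance, fun _ _ => False, 1, 0, 1, fun _ _ => False.elim, by simp, fun _ _ _ _ => False.elim,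
      by simp, fun I _ => Nat.mul_le_mul_left _ (sum_le_univ_sum_of_nonneg (by simp))⟩
  | succ m ih =>
    obtain ⟨V, _, R, K, rk, w, h⟩ := ih
    obtain ⟨u, hu⟩ : ∃ u, u = (m + 2) * (m + 2) := ⟨_, rfl⟩
    obtain ⟨W, hW⟩ : ∃ W, W = ∑ v, w v := ⟨_, rfl⟩
    have W0 : 0 < W := hW ▸ h.pos
    have tot : ∑ v, Sum.elim (fun a : Fin (u + 1) × V => (m + 1) * W ^ u * w a.2)
        (fun f : Fin (u + 1) → V => 2 * (u + 1) * ∏ i, w (f i)) v = (m + 3) * (u + 1) * W ^ (u + 1) := by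
      simp only [Fintype.sum_sum_type, Sum.elim_inl, Sum.elim_inr, ← mul_sum, Fintype.sum_prod_type, ← hW,
        ← Fintype.prod_sum (fun (_ : Fin (u + 1)) v => w v)]
      simp; ring
    refine ⟨_, inferInstance, nx (u + 1) R, K + 1, Sum.elim (fun a => rk a.2) fun _ => K,
      Sum.elim (fun a => (m + 1) * W ^ u * w a.2) fun f => 2 * (u + 1) * ∏ i, w (f i), ?_, ?_, ?_, by
        rw [tot]; positivity, fun I hI => ?_⟩
    · rintro (a | a) (b | b) q
      exacts [h.lt _ _ q.2, q.elim, h.bd _, q.elim]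
    · rintro (a | a)
      exacts [(h.bd _).trans K.lt_succ_self, K.lt_succ_self]
    · rintro a (c | c) (d | d) b q1 q2 r1 r2
      · obtain ⟨e, rfl, r3⟩ := nx_reach r1
        obtain ⟨f, e2, r4⟩ := nx_reach r2
        obtain ⟨e3, rfl⟩ := Prod.mk.inj (Sum.inl.inj e2)
        refine congrArg _ (Prod.ext e3 ?_)
        rcases a with a | a
        · exact h.uq _ _ _ _ q1.2 q2.2 r3 r4
        · exact q1.symm.trans (e3 ▸ q2)
      all_goals rcases a with a | a <;> first | exact q1.elim | exact q2.elim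
    rw [tot]
    let J : Fin (u + 1) → Finset V := fun i => univ.filter fun v => Sum.inl (i, v) ∈ I
    have j1 : ∀ i, (m + 2) * ∑ v ∈ J i, w v ≤ 2 * W := fun i => hW ▸ h.ind _ fun a ha b hb q =>
      hI _ (mem_filter.1 ha).2 _ (mem_filter.1 hb).2 ⟨rfl, q⟩
    have j2 : ∀ i, ∑ v ∈ (J i)ᶜ, w v + ∑ v ∈ J i, w v = W := fun i => hW ▸ sum_compl_add_sum _ _
    have le : ∑ v ∈ I, Sum.elim (fun a : Fin (u + 1) × V => (m + 1) * W ^ u * w a.2)
        (fun f : Fin (u + 1) → V => 2 * (u + 1) * ∏ i, w (f i)) v ≤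
        (m + 1) * W ^ u * ∑ i, ∑ v ∈ J i, w v + 2 * (u + 1) * ∏ i, ∑ v ∈ (J i)ᶜ, w v := by
      rw [← toLeft_disjSum_toRight (u := I), sum_disjSum, prod_univ_sum]
      simp only [Sum.elim_inl, Sum.elim_inr, ← mul_sum]
      refine add_le_add (Nat.mul_le_mul_left _ (le_of_eq ?_)) (Nat.mul_le_mul_left _ (sum_le_sum_of_subset fun f hf => ?_))
      · rw [sum_sigma' univ J fun _ v => w v]
        exact sum_bij' (fun a _ => ⟨a.1, a.2⟩) (fun a _ => (a.1, a.2)) (by simp [J]) (by simp [J]) (by simp) (by simp)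
          (by simp)
      · simp only [Fintype.mem_piFinset, mem_compl, J, mem_filter, mem_univ, true_and]
        exact fun i q => hI _ (mem_toRight.1 hf) _ q rfl
    have Wr : (0 : ℝ) < W := by exact_mod_cast W0
    have key := ineq (m := m + 2) (t := u + 1) (s := ∑ i, ((∑ v ∈ J i, w v : ℕ) : ℝ) / W) (by linarith [m.cast_nonneg (α := ℝ)])
      (by rw [hu]; push_cast; ring) (by positivity) (by
        rw [mul_sum]
        refine (sum_le_card_nsmul _ _ 2 fun i _ => ?_).trans (by simp [mul_comm])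
        rw [← mul_div_assoc, div_le_iff₀ Wr]
        exact_mod_cast j1 i) (prod_le univ _ (fun i => by positivity) fun i => (div_le_one Wr).2 (by
          exact_mod_cast (j2 i ▸ Nat.le_add_left _ _)))
    have e : ∀ i, 1 - ((∑ v ∈ J i, w v : ℕ) : ℝ) / W = ((∑ v ∈ (J i)ᶜ, w v : ℕ) : ℝ) / W := fun i => by
      rw [eq_div_iff Wr.ne', sub_mul, div_mul_cancel₀ _ Wr.ne', ← j2 i]; push_cast; ring
    simp only [e, prod_div_distrib, prod_const, card_univ, Fintype.card_fin, ← sum_div] at key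
    have : (m + 1) * W ^ u * ∑ i, ∑ v ∈ J i, w v + 2 * (u + 1) * ∏ i, ∑ v ∈ (J i)ᶜ, w v ≤ 2 * (u + 1) * W ^ (u + 1) := by
      rw [← Nat.cast_le (α := ℝ)]
      have := mul_le_mul_of_nonneg_right key (pow_pos Wr (u + 1)).le
      rw [add_mul, mul_assoc (2 * _), div_mul_cancel₀ _ (by positivity), mul_assoc, pow_succ', ← mul_assoc (_ / _),
        div_mul_cancel₀ _ Wr.ne'] at this
      push_cast at this ⊢
      rw [pow_succ']
      linarith
    calc _ ≤ (m + 1 + 2) * (2 * (u + 1) * W ^ (u + 1)) := Nat.mul_le_mul_left _ (le.trans this)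
      _ = _ := by ring

end Pool.Agent.H.MP_cbd396_lc
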