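import Pool.Agent.H.MP_cbd396_lc.A

namespace Pool.Agent.H.MP_cbd396_lc

open Finset Relation

variable {V : Type} [Fintype V] {R : V → V → Prop} {K m : ℕ} {rk w : V → ℕ}

def Pth (R : V → V → Prop) (U : V → Prop) : ℕ → V → V → Prop
  | 0, u, z => U u ∧ u = z
  | k + 1, u, z => U u ∧ ∃ c, R u c ∧ Pth R U k c z

omit [Fintype V] in
theorem Pth.mono {U U' : V → Prop} (l : ∀ v, U v → U' v) : ∀ {k u z}, Pth R U k u z → Pth R U' k u z
  | 0, _, _, h => ⟨l _ h.1, h.2⟩
  | _ + 1, _, _, ⟨a, c, b, h⟩ => ⟨l _ a, c, b, h.mono l⟩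

omit [Fintype V] in
theorem Pth.hd {U : V → Prop} : ∀ {k u z}, Pth R U k u z → U u
  | 0, _, _, h => h.1
  | _ + 1, _, _, h => h.1

theorem Good.roy (h : Good V R K rk w m) (k : ℕ) : ∀ U : Finset V, (∀ u z, ¬Pth R (· ∈ U) k u z) →
    m * ∑ v ∈ U, w v ≤ k * (2 * ∑ v, w v) := by
  classical
  induction k with
  | zero => intro U q; rw [eq_empty_of_forall_notMem fun u hu => q u u ⟨hu, rfl⟩]; simp
  | succ k ih =>
    intro U q
    rw [← sum_filter_add_sum_filter_not U fun v => ∃ u ∈ U, R u v, mul_add, add_mul, one_mul]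
    refine add_le_add (ih _ fun u z p => ?_) (h.ind _ fun a ha b hb r => (mem_filter.1 hb).2 ⟨a, (mem_filter.1 ha).1, r⟩)
    obtain ⟨c, a, b⟩ := (mem_filter.1 p.hd).2
    exact q c z ⟨a, u, b, p.mono fun v hv => (mem_filter.1 hv).1⟩

theorem Good.le (h : Good V R K rk w m) {a b} (p : ReflTransGen R a b) : a = b ∨ rk b < rk a := by
  induction p with
  | refl => exact .inl rfl
  | tail _ q ih => have := h.lt _ _ q; rcases ih with rfl | e <;> omega

theorem Good.on (h : Good V R K rk w m) {U} : ∀ {k u z}, Pth R U k u z → ReflTransGen R u z ∧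
    ∃ S : Finset V, #S = k + 1 ∧ ∀ v ∈ S, ReflTransGen R u v ∧ ReflTransGen R v z
  | 0, u, _, ⟨_, rfl⟩ => ⟨.refl, {u}, rfl, by simp [ReflTransGen.refl]⟩
  | k + 1, u, z, ⟨_, c, b, p⟩ => by
    classical
    obtain ⟨r, S, s1, s2⟩ := h.on p
    refine ⟨r.head b, insert u S, by
      rw [card_insert_of_notMem fun q => ?_, s1]
      have := h.lt _ _ b
      rcases h.le (s2 u q).1 with rfl | e <;> omega, forall_mem_insert _ _ _ |>.2 ⟨⟨.refl, r.head b⟩, fun v hv =>
        ⟨(s2 v hv).1.head b, (s2 v hv).2⟩⟩⟩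

theorem Good.cut (h : Good V R K rk w m) {a v b} (q : ReflTransGen (fun x y => R x y ∧ x ≠ v) a b) (n : b ≠ v)
    (p2 : ReflTransGen R v b) (p1 : ReflTransGen R a v) : False := by
  induction q using ReflTransGen.head_induction_on with
  | refl => rcases h.le p1 with e | e <;> rcases h.le p2 with f | f <;> first | exact n e | exact n f.symm | omega
  | head r q ih =>
    obtain e | ⟨d, e, p⟩ := p1.cases_head
    · exact r.2 e
    · exact ih (h.uq _ _ _ _ e r.1 (p.trans p2) (ReflTransGen.mono (fun _ _ => And.left) _ _ q) ▸ p)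

abbrev Pr (R : V → V → Prop) (C : ℕ) := {p : V × V // Pth R (fun _ => True) C p.1 p.2}

abbrev Nd (R : V → V → Prop) (C : ℕ) (w : V → ℕ) := (Pr R C ⊕ Pr R C) ⊕ (Σ v, Fin (w v)) × Bool

def Ed (R : V → V → Prop) (C : ℕ) (w : V → ℕ) : Nd R C w → Nd R C w → Prop
  | .inl (.inl p), .inr (c, false) => c.1 = p.1.1
  | .inr (c, false), .inr (d, true) => c = d
  | .inr (c, true), .inr (d, false) => R c.1 d.1
  | .inr (c, true), .inl (.inr p) => c.1 = p.1.2
  | _, _ => False

def ρ (K : ℕ) (rk : V → ℕ) {C : ℕ} : Nd R C w → ℕ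
  | .inl (.inl _) => 0
  | .inl (.inr _) => 2 * K + 3
  | .inr (c, b) => 2 * (K - rk c.1) + if b then 2 else 1

theorem Good.rho (h : Good V R K rk w m) {C} (a b : Nd R C w) (e : Ed R C w a b) : ρ K rk a < ρ K rk b := by
  rcases a with (a | a) | ⟨a, _ | _⟩ <;> rcases b with (b | b) | ⟨b, _ | _⟩ <;> simp only [Ed, ρ] at e ⊢ <;>
    simp only [if_true, Bool.false_eq_true, if_false]
  · omega
  · rw [e]; omega
  · omega
  · have := h.lt _ _ e
    have := h.bd a.1
    omega

theorem Good.mc (h : Good V R K rk w m) {C} (M : Finset (Nd R C w × Nd R C w))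
    (hM : Multicut (Ed R C w) (fun p => .inl (.inl p)) (fun p => .inl (.inr p)) M) :
    m * ∑ v, w v ≤ m * #M + C * (2 * ∑ v, w v) := by
  classical
  let f : Nd R C w × Nd R C w → Option (Σ v, Fin (w v)) := fun e =>
    e.1.elim (fun _ => e.2.elim (fun _ => none) fun c => some c.1) fun c => some c.1
  let U : Finset V := univ.filter fun v => ∃ i, some ⟨v, i⟩ ∉ M.image f
  have a : ∑ v ∈ Uᶜ, w v ≤ #M := by
    refine le_trans ?_ (card_image_le (f := f))
    rw [sum_congr rfl fun v _ => (card_fin (w v)).symm, ← card_sigma, ← card_image_of_injective _ (Option.some_injective _)]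
    refine card_le_card fun o ho => ?_
    obtain ⟨c, hc, rfl⟩ := mem_image.1 ho
    have := (mem_sigma.1 hc).1
    simp only [U, mem_compl, mem_filter, mem_univ, true_and, not_exists, not_not] at this
    exact this c.2
  have nm : ∀ e c, f e = some c → some c ∉ M.image f → e ∉ M := fun e c q n r => n (q ▸ mem_image_of_mem f r)
  have key : ∀ k u z, Pth R (· ∈ U) k u z → ∀ i, some ⟨u, i⟩ ∉ M.image f → ∃ j, some ⟨z, j⟩ ∉ M.image f ∧
      ReflTransGen (fun u v => Ed R C w u v ∧ (u, v) ∉ M) (.inr (⟨u, i⟩, false)) (.inr (⟨z, j⟩, true)) := fun k => by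
    induction k with
    | zero => rintro u z ⟨-, rfl⟩ i n; exact ⟨i, n, .single ⟨rfl, nm _ _ rfl n⟩⟩
    | succ k ih =>
      rintro u z ⟨-, c, r, p⟩ i n
      obtain ⟨l, hl⟩ := (mem_filter.1 p.hd).2
      obtain ⟨j, q, s⟩ := ih c z p l hl
      have a1 : Ed R C w (.inr (⟨u, i⟩, false)) (.inr (⟨u, i⟩, true)) := rfl
      have a2 : Ed R C w (.inr (⟨u, i⟩, true)) (.inr (⟨c, l⟩, false)) := r
      exact ⟨j, q, .head ⟨a1, nm _ _ rfl n⟩ (s.head ⟨a2, nm _ _ rfl n⟩)⟩
  have b := h.roy C U fun u z p => by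
    obtain ⟨i, hi⟩ := (mem_filter.1 p.hd).2
    obtain ⟨j, q, s⟩ := key C u z p i hi
    exact hM ⟨(u, z), p.mono fun _ _ => trivial⟩ ((s.head ⟨rfl, nm _ _ rfl hi⟩).tail ⟨rfl, nm _ _ rfl q⟩)
  rw [← sum_compl_add_sum U, mul_add, sum_compl_add_sum]
  exact add_le_add (Nat.mul_le_mul_left _ a) b

def Inv (v u : V) {C : ℕ} : Nd R C w → Prop
  | .inl (.inl p) => p.1.1 = u
  | .inl (.inr p) => ReflTransGen (fun x y => R x y ∧ x ≠ v) u p.1.2 ∧ p.1.2 ≠ v
  | .inr (c, b) => ReflTransGen (fun x y => R x y ∧ x ≠ v) u c.1 ∧ (b = true → c.1 ≠ v)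

omit [Fintype V] in
theorem Inv.step {v u C} {a b : Nd R C w} (h : Inv v u a) (e : Ed R C w a b)
    (n : ∀ i, a ≠ .inr (⟨v, i⟩, false)) : Inv v u b := by
  rcases a with (a | a) | ⟨a, _ | _⟩ <;> rcases b with (b | b) | ⟨b, _ | _⟩ <;> simp only [Ed, Inv] at e h ⊢
  · exact ⟨by rw [e, h], by simp⟩
  · subst e
    exact ⟨h.1, fun _ q => by obtain ⟨a, i⟩ := a; subst q; exact n i rfl⟩
  · exact e ▸ ⟨h.1, h.2 trivial⟩
  · exact ⟨h.1.tail ⟨e, h.2 trivial⟩, by simp⟩

open Classical in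
theorem Good.cap (h : Good V R K rk w m) {C} {A : Type} [Fintype A] (hA : 2 ≤ Fintype.card A) {b} {a : Pr R C → ℕ}
    (H : Solution (Ed R C w) (fun p => .inl (.inl p)) (fun p => .inl (.inr p)) A b a) (v : V) :
    ∑ p with ReflTransGen R p.1.1 v ∧ ReflTransGen R v p.1.2, a p ≤ w v * b := by
  obtain ⟨y, loc, dec⟩ := H
  obtain ⟨o⟩ : Nonempty A := Fintype.card_pos_iff.1 (by omega)
  let T := fun p : Pr R C => ReflTransGen R p.1.1 v ∧ ReflTransGen R v p.1.2
  let ext : (∀ p : {p // T p}, Fin (a p) → A) → ∀ p, Fin (a p) → A := fun x p => if q : T p then x ⟨p, q⟩ else fun _ => o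
  have inj : Function.Injective fun x (i : Fin (w v)) => y (.inr (⟨v, i⟩, false)) (.inr (⟨v, i⟩, true)) (ext x) := by
    intro x x' e
    have key : ∀ n c, ρ K rk c = n → (∀ u, ReflTransGen R u v → (∃ p, T p ∧ p.1.1 = u) → ¬Inv v u c ∨ False) →
        (∀ d, Ed R C w d c → y d c (ext x) = y d c (ext x')) := fun n => by
      induction n using Nat.strong_induction_on with
      | _ n ih =>
        intro c hn hc d hd
        by_cases q : ∃ i, d = .inr (⟨v, i⟩, false)
        · obtain ⟨i, rfl⟩ := q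
          rcases c with (c | c) | ⟨c, _ | _⟩ <;> simp only [Ed] at hd
          subst hd
          exact congrFun e i
        push Not at q
        have nd : ∀ u, ReflTransGen R u v → (∃ p, T p ∧ p.1.1 = u) → ¬Inv v u d ∨ False := fun u r s =>
          .inl fun k => (hc u r s).elim (· (k.step hd q)) id
        obtain ⟨f, hf⟩ := loc d c hd
        rw [hf, hf, funext fun g : {g // Ed R C w g d} => ih _ (hn ▸ h.rho _ _ hd) d rfl nd g g.2]
        congr 1
        funext p
        have : ¬T p := fun k => (nd _ k.1 ⟨p, k, rfl⟩).elim (· (by obtain ⟨p, rfl⟩ := p; rfl)) id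
        simp only [ext, dif_neg this]
    funext p
    obtain ⟨g, hg⟩ := dec p
    have := (hg (ext x)).trans ((congrArg g (funext fun d => key _ (.inl (.inr p)) rfl
      (fun u r _ => .inl fun k => h.cut k.1 k.2 p.2.2 r) d d.2)).trans (hg (ext x')).symm)
    simpa [ext, p.2] using this
  have := Fintype.card_le_of_injective _ inj
  simp only [Fintype.card_pi, prod_const, card_univ, Fintype.card_fin, prod_pow_eq_pow_sum, ← pow_mul] at this
  rw [mul_comm, sum_subtype (p := T) _ (by simp [T])]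
  exact (Nat.pow_le_pow_iff_right hA).1 this

open Classical in
theorem Good.rate (h : Good V R K rk w m) {C} {A : Type} [Fintype A] (hA : 2 ≤ Fintype.card A) {b} {a : Pr R C → ℕ}
    (H : Solution (Ed R C w) (fun p => .inl (.inl p)) (fun p => .inl (.inr p)) A b a) :
    (C + 1) * ∑ p, a p ≤ (∑ v, w v) * b := by
  rw [sum_mul]
  refine le_trans ?_ (sum_le_sum fun v _ => h.cap hA H v)
  simp only [sum_filter]
  rw [sum_comm, mul_sum]
  refine sum_le_sum fun p _ => ?_
  obtain ⟨-, S, s1, s2⟩ := h.on p.2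
  rw [← sum_filter, sum_const, smul_eq_mul, ← s1]
  exact Nat.mul_le_mul_right _ (card_le_card fun v hv => mem_filter.2 ⟨mem_univ _, s2 v hv⟩)

end Pool.Agent.H.MP_cbd396_lc
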